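import Pool.Agent.H.MP_a08d7f_lc.C

namespace Pool.Agent.Results.MP_a08d7f_lc.Hard

open Pool.Agent.Lib.CX Pool.Agent.H.MP_a08d7f_lc

theorem result : NPHard fun a : {a : Gr × List (List ℕ) // PathSys a.1 a.2 ∧ Consistent a.2} =>
    HasReduction a.1.1 a.1.2 := hard

end Pool.Agent.Results.MP_a08d7f_lc.Hard
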